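import Mathlib
import Pool.Agent.H14.Darb

namespace Pool.Agent.Results.MP_52e7c8_nt.Counter

open Set

/-- the set k X + h -/
def aff (k h : ℤ) (X : Set ℤ) : Set ℤ := (fun x => k * x + h) '' X

/-- an upper quasi-density on H: only the values on subsets of H matter -/
def IsUpperQuasiDensity (H : Set ℤ) (μ : Set ℤ → ℝ) : Prop :=
  μ H = 1 ∧ (∀ X ⊆ H, ∀ Y ⊆ H, μ (X ∪ Y) ≤ μ X + μ Y) ∧
    (∀ X ⊆ H, ∀ k h : ℤ, 0 < k → 0 < h → μ (aff k h X) = 1 / k * μ X) ∧ ∀ X ⊆ H, μ X ≤ 1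

/-- X belongs to the domain of the induced quasi-density -/
def Dom (H : Set ℤ) (μ : Set ℤ → ℝ) (X : Set ℤ) : Prop := X ⊆ H ∧ μ X + μ (H \ X) = 1

open Pool.Agent.H14.Darb

theorem result (H : Set ℤ) (hH : H = univ ∨ H = {x | 0 ≤ x} ∨ H = {x | 1 ≤ x}) :
    ∃ μ : Set ℤ → ℝ, IsUpperQuasiDensity H μ ∧ Monotone μ ∧
      ∃ X, Dom H μ X ∧ μ X = 1 / 2 ∧ ∀ Y ⊆ X, Dom H μ Y → μ Y = 0 ∨ μ Y = 1 / 2 := by
  obtain ⟨χ, hχ⟩ := exists_gen
  have h1 : ∀ w : ℤ, 1 ≤ w → w ∈ H := by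
    intro w hw
    rcases hH with rfl | rfl | rfl
    · trivial
    · exact le_trans zero_le_one hw
    · exact hw
  have a1 : m χ {w ∈ H | χ w = true} ≤ 1 / 2 := m_half true fun w hw => hw.2
  have a2 : m χ (H \ {w ∈ H | χ w = true}) ≤ 1 / 2 :=
    m_half false fun w hw => by simpa [hw.1] using hw.2
  have a3 := m_union (χ := χ) {w ∈ H | χ w = true} (H \ {w ∈ H | χ w = true})
  rw [union_diff_cancel (sep_subset _ _), m_H hχ h1] at a3
  refine ⟨m χ, ⟨m_H hχ h1, fun X _ Y _ => m_union X Y, fun X _ k h hk _ => ?_,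
    fun X _ => m_le_one X⟩, fun _ _ h => m_mono h, {w ∈ H | χ w = true},
    ⟨sep_subset _ _, by linarith⟩, by linarith, fun Y hY hD => ?_⟩
  · lift k to ℕ using hk.le
    exact m_aff X k h (by exact_mod_cast hk)
  · have b1 : m χ Y ≤ 1 / 2 := (m_mono hY).trans a1
    rcases b1.eq_or_lt with b2 | b2
    · exact Or.inr b2
    · have b3 := gap hχ h1 (fun w hw => (hY hw).2) b2
      have b4 := m_le_one (χ := χ) (H \ Y)
      exact Or.inl (by linarith [hD.2])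

end Pool.Agent.Results.MP_52e7c8_nt.Counter
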